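import Pool.Agent.H88.MCR.Stmts4
import Pool.Agent.H14.MCR.B6G

/-!
Row B8G of the board `mcr`: the base diagram (after helper14's row B6G).
-/

namespace Pool.MCR

namespace B8G

set_option synthInstance.maxSize 100000
set_option maxRecDepth 100000

open B6G

instance decR8 (x y : ℕ) : Decidable (R8 x y) := by unfold R8; infer_instance

theorem irr0 : ∀ q ∈ E8, q.1 ≠ q.2 := by decide +kernel

theorem sym0 : ∀ q ∈ E8, ((q.2, q.1) : ℕ × ℕ) ∈ E8 := by decide +kernel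

theorem pos_inj : ∀ x < 8, ∀ y < 8, B8.pos x = B8.pos y → x = y := by decide +kernel

theorem notin : ∀ x < 8, ∀ y < 8, ∀ z < 8, R8 x y → B8.pos z ∉ B8.E x y := by decide +kernel

theorem nodup : ∀ x < 8, ∀ y < 8, R8 x y → (B8.E x y).Nodup := by decide +kernel

theorem disj : ∀ x < 8, ∀ y < 8, ∀ z < 8, ∀ t < 8, R8 x y → R8 z t → ∀ c ∈ B8.E x y,
    c ∈ B8.E z t → (x = z ∧ y = t) ∨ (x = t ∧ y = z) := by decide +kernel

theorem symE : ∀ x < 8, ∀ y < 8, R8 x y → ∀ c ∈ B8.E x y, c ∈ B8.E y x := by decide +kernel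

theorem symA : ∀ x < 8, ∀ y < 8, R8 x y → ∀ A ∈ B8.A x y,
    ((A.1, A.2.2, A.2.1) : Arc ℕ) ∈ B8.A y x := by decide +kernel

theorem adj : ∀ x < 8, ∀ y < 8, ∀ z < 8, R8 x y → R8 x z → y ≠ z →
    NC (B8.A x y) (B8.A x z) := by decide +kernel

theorem self : ∀ x < 8, ∀ y < 8, R8 x y → NC (B8.A x y) (B8.A x y) := by decide +kernel

theorem two : ∀ x < 8, ∀ y < 8, ∀ z < 8, ∀ t < 8, R8 x y → R8 z t → x ≠ z → x ≠ t → y ≠ z →
    y ≠ t → AM (B8.A x y) (B8.A z t) := by decide +kernel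

end B8G

theorem b8g_thm : B8G_S :=
  ⟨fun x h => B8G.irr0 (x, x) h rfl, fun x y h => B8G.sym0 (x, y) h, B8G.pos_inj, B8G.notin,
    B8G.nodup, fun x hx y hy z hz t ht h1 h2 c hc hc' =>
      B8G.disj x hx y hy z hz t ht h1 h2 c hc hc',
    fun x hx y hy h c hc => B8G.symE x hx y hy h c hc,
    fun x hx y hy h s a b hA => B8G.symA x hx y hy h (s, a, b) hA,
    B8G.adj, B8G.self, B8G.two⟩

end Pool.MCR
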