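import Pool.Agent.H88.MCR.Stmts

set_option autoImplicit false

namespace Pool.MCR

theorem cat_thm : CAT_S := by
  intro X Y p q r hX hY hXY
  obtain ⟨γ, hγ, hγr⟩ := hX
  obtain ⟨δ, hδ, hδr⟩ := hY
  refine ⟨γ.trans δ, ?_, ?_⟩
  · have key : ∀ s t : unitInterval, (s : ℝ) ≤ 1 / 2 → ¬ ((t : ℝ) ≤ 1 / 2) →
        (γ.trans δ) s = (γ.trans δ) t → False := by
      intro s t hs ht hst
      rw [Path.trans_apply, Path.trans_apply, dif_pos hs, dif_neg ht] at hst
      set u : unitInterval := ⟨2 * (t : ℝ) - 1,
        unitInterval.two_mul_sub_one_mem_iff.2 ⟨(not_le.1 ht).le, t.2.2⟩⟩ with hu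
      have h1 : δ u ∈ X ∩ Y := by
        constructor
        · rw [← hst, ← hγr]
          exact Set.mem_range_self _
        · rw [← hδr]
          exact Set.mem_range_self _
      rw [hXY, Set.mem_singleton_iff] at h1
      have h2 : u = 0 := hδ (by rw [h1, δ.source])
      have h3 : (u : ℝ) = 0 := by rw [h2]; rfl
      rw [hu] at h3
      simp only at h3
      apply ht
      linarith
    intro s t hst
    by_cases hs : (s : ℝ) ≤ 1 / 2
    · by_cases ht : (t : ℝ) ≤ 1 / 2
      · rw [Path.trans_apply, Path.trans_apply, dif_pos hs, dif_pos ht] at hst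
        have h1 := congrArg Subtype.val (hγ hst)
        simp only at h1
        exact Subtype.ext (by linarith)
      · exact (key s t hs ht hst).elim
    · by_cases ht : (t : ℝ) ≤ 1 / 2
      · exact (key t s ht hs hst.symm).elim
      · rw [Path.trans_apply, Path.trans_apply, dif_neg hs, dif_neg ht] at hst
        have h1 := congrArg Subtype.val (hδ hst)
        simp only at h1
        exact Subtype.ext (by linarith)
  · rw [Path.trans_range, hγr, hδr]

end Pool.MCR
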