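import Pool.Agent.H88.MCR.Stmts2

set_option autoImplicit false

namespace Pool.MCR

open SimpleGraph

theorem ORB_adj {V : Type} {T : SimpleGraph V} (hT : T.IsAcyclic) {a b : V} (w : T.Walk a b)
    (hw : w.IsPath) (i j : ℕ) (hij : i ≤ j) (hj : j ≤ w.length)
    (h : T.Adj (w.getVert i) (w.getVert j)) : i + 1 = j := by
  have hlt : i < j := by
    rcases hij.lt_or_eq with h1 | h1
    · exact h1
    · subst h1
      exact (h.ne rfl).elim
  have hs : w.getVert j ∈ (w.drop i).support := by
    rw [Walk.mem_support_iff_exists_getVert]
    refine ⟨j - i, ?_, ?_⟩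
    · rw [Walk.drop_getVert]
      congr 1
      omega
    · rw [Walk.drop_length]
      omega
  have h1 := hT.eq_snd_of_adj_start (hw.drop i) h hs
  rw [Walk.snd, Walk.drop_getVert] at h1
  exact (hw.getVert_injOn (Set.mem_ofPred.2 hj) (Set.mem_ofPred.2 (by omega)) h1).symm

theorem orb_thm : ORB_S := by
  intro V _ F e0 he0 hac hnac hcyc
  induction e0 using Sym2.ind with
  | _ a b =>
    have hab : F.Adj a b := he0
    have hne : a ≠ b := hab.ne
    set F' := F.deleteEdges {s(a, b)} with hF'
    have hF'le : F' ≤ F := deleteEdges_le _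
    -- reachability
    have hreach : F'.Reachable a b := by
      by_contra hcon
      apply hnac
      have h1 := hac.sup_edge_of_not_reachable hcon
      refine h1.anti ?_
      intro x y hxy
      rw [sup_adj]
      by_cases h2 : s(x, y) = s(a, b)
      · right
        rw [edge_adj]
        rw [Sym2.eq_iff] at h2
        exact ⟨by tauto, hxy.ne⟩
      · left
        rw [hF', deleteEdges_adj]
        exact ⟨hxy, h2⟩
    obtain ⟨w0, hw0⟩ := hreach.exists_isPath
    have : Nonempty V := ⟨a⟩
    obtain ⟨T, hF'T, -, hT⟩ := (connected_top (V := V)).exists_isTree_le_of_le_of_isAcyclic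
      (le_top : F' ≤ ⊤) hac
    set w : T.Walk a b := w0.mapLe hF'T with hw
    have hwp : w.IsPath := (Walk.isPath_mapLe hF'T).2 hw0
    have hlen : w.length = w0.length := Walk.length_mapLe ..
    have hl0 : w0.length ≠ 0 := by
      intro h0
      exact hne (Walk.eq_of_length_eq_zero h0)
    have hl1 : w0.length ≠ 1 := by
      intro h1
      have h2 : F'.Adj a b := Walk.adj_of_length_eq_one h1
      rw [hF', deleteEdges_adj] at h2
      exact h2.2 rfl
    have hl3 : w0.length ≠ 3 := by
      intro h3
      have hc : (Walk.cons hab.symm (w0.mapLe hF'le)).IsCycle := by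
        rw [Walk.cons_isCycle_iff]
        refine ⟨(Walk.isPath_mapLe hF'le).2 hw0, ?_⟩
        rw [Walk.edges_mapLe_eq_edges]
        intro hmem
        have h4 := Walk.edges_subset_edgeSet _ hmem
        rw [mem_edgeSet, hF', deleteEdges_adj] at h4
        exact h4.2 Sym2.eq_swap
      apply hcyc _ _ hc
      rw [Walk.length_cons, Walk.length_mapLe, h3]
    refine ⟨T, w.length + 1, fun i => w.getVert i, hT, by omega, by omega, ?_, ?_, ?_, ?_⟩
    · intro i j hij
      apply Fin.ext
      exact hwp.getVert_injOn (Set.mem_ofPred.2 (by omega)) (Set.mem_ofPred.2 (by omega)) hij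
    · have h1 := w.connected_induce_support
      have h2 : {v | v ∈ w.support} = Set.range (fun i : Fin (w.length + 1) => w.getVert i) := by
        ext v
        rw [Set.mem_ofPred, Walk.mem_support_iff_exists_getVert, Set.mem_range]
        constructor
        · rintro ⟨n, h3, h4⟩
          exact ⟨⟨n, by omega⟩, h3⟩
        · rintro ⟨i, hi⟩
          exact ⟨i, hi, by omega⟩
      rw [← h2]
      exact h1
    · intro i j
      constructor
      · intro h
        rcases le_total (i : ℕ) j with hij | hij
        · exact Or.inl (ORB_adj hT.isAcyclic w hwp i j hij (by omega) h)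
        · exact Or.inr (ORB_adj hT.isAcyclic w hwp j i hij (by omega) h.symm)
      · rintro (h | h)
        · have h1 := w.adj_getVert_succ (i := (i : ℕ)) (by omega)
          rw [h] at h1
          exact h1
        · have h1 := w.adj_getVert_succ (i := (j : ℕ)) (by omega)
          rw [h] at h1
          exact h1.symm
    · intro x y hxy
      by_cases h2 : s(x, y) = s(a, b)
      · right
        refine ⟨⟨0, by omega⟩, ⟨w.length, by omega⟩, rfl, rfl, ?_⟩
        simp only [Walk.getVert_zero, Walk.getVert_length]
        rw [Sym2.eq_iff] at h2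
        exact h2
      · left
        apply hF'T
        rw [hF', deleteEdges_adj]
        exact ⟨hxy, h2⟩

end Pool.MCR
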